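import Mathlib

/-! # Project HL (helper95): module DIV (helper59) -/

set_option autoImplicit false

namespace Pool.Agent.H59.HL

open Polynomial Filter Topology

theorem den (p : ℚ[X]) : ∃ N : ℤ, N ≠ 0 ∧ ∀ x : ℤ, ∃ z : ℤ, (z : ℚ) = N * p.eval (x : ℚ) := by
  obtain ⟨b, hb⟩ := IsLocalization.integerNormalization_map_to_map (nonZeroDivisors ℤ) (p : ℚ[X])
  refine ⟨b, nonZeroDivisors.ne_zero b.2, fun x => ⟨(IsLocalization.integerNormalization (nonZeroDivisors ℤ) p).eval x, ?_⟩⟩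
  have h := congrArg (Polynomial.eval (x : ℚ)) hb
  have e : ((x : ℤ) : ℚ) = algebraMap ℤ ℚ x := by simp
  rw [e, Polynomial.eval_map_algebraMap, Polynomial.aeval_algebraMap_apply] at h
  simp only [Polynomial.coe_aeval_eq_eval] at h
  rw [← e] at h
  have h2 : (b.1 • p).eval (x : ℚ) = (b.1 : ℚ) * p.eval (x : ℚ) := by
    rw [Polynomial.eval_smul]
    simp
  rw [h2] at h
  simpa using h

theorem dive : ∀ (A : ℚ[X]) (k i : ℕ), 1 ≤ A.natDegree → 1 ≤ k → ∃ s₀ : ℕ, ∀ s : ℕ, s₀ ≤ s → ∀ d : ℤ,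
    (d : ℚ) = A.eval ((2 : ℚ) ^ s) → d ∣ 2 ^ (k * s + i) + 1 → A ∣ C ((2 : ℚ) ^ i) * X ^ k + 1 := by
  intro A k i hA hk
  by_cases hdv : A ∣ C ((2 : ℚ) ^ i) * X ^ k + 1
  · exact ⟨0, fun _ _ _ _ _ => hdv⟩
  set B : ℚ[X] := C ((2 : ℚ) ^ i) * X ^ k + 1 with hB
  have hA0 : A ≠ 0 := by
    rintro rfl
    simp at hA
  have hR : B % A ≠ 0 := by
    intro h
    exact hdv (EuclideanDomain.mod_eq_zero.1 h)
  have hdeg : (B % A).degree < A.degree := EuclideanDomain.mod_lt B hA0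
  obtain ⟨N, hN, hNQ⟩ := den (B / A)
  obtain ⟨N', hN', hNR⟩ := den (B % A)
  have hNN : (N * N' : ℚ) ≠ 0 := by
    have h1 : (N : ℚ) ≠ 0 := by exact_mod_cast hN
    have h2 : (N' : ℚ) ≠ 0 := by exact_mod_cast hN'
    exact mul_ne_zero h1 h2
  have ht : Tendsto (fun s : ℕ => (2 : ℚ) ^ s) atTop atTop := tendsto_pow_atTop_atTop_of_one_lt (by norm_num)
  have h1 : Tendsto (fun x : ℚ => (C (N * N' : ℚ) * (B % A)).eval x / A.eval x) atTop (𝓝 0) := by
    apply Polynomial.div_tendsto_atTop_zero_of_degree_lt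
    rwa [Polynomial.degree_C_mul hNN]
  have h2 := (h1.comp ht).eventually (Metric.ball_mem_nhds (0 : ℚ) one_pos)
  have h3 := ht.eventually (Polynomial.eventually_atTop_not_isRoot (B % A) hR)
  obtain ⟨s₀, hs₀⟩ := eventually_atTop.1 (h2.and h3)
  refine ⟨s₀, fun s hs d hd hdd => ?_⟩
  exfalso
  obtain ⟨h4, h5⟩ := hs₀ s hs
  apply h5
  obtain ⟨e, he⟩ := hdd
  have hB2 : B.eval ((2 : ℚ) ^ s) = ((2 ^ (k * s + i) + 1 : ℤ) : ℚ) := by
    rw [hB]
    simp only [eval_add, eval_mul, eval_C, eval_pow, eval_X, eval_one]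
    push_cast
    rw [← pow_mul, mul_comm s k, pow_add]
    ring
  have hd0 : d ≠ 0 := by
    rintro rfl
    rw [zero_mul] at he
    have : (0 : ℤ) < 2 ^ (k * s + i) + 1 := by positivity
    omega
  obtain ⟨z, hz⟩ := hNQ ((2 : ℤ) ^ s)
  obtain ⟨z', hz'⟩ := hNR ((2 : ℤ) ^ s)
  have c2 : (((2 : ℤ) ^ s : ℤ) : ℚ) = (2 : ℚ) ^ s := by push_cast; rfl
  rw [c2] at hz hz'
  have hE : B.eval ((2 : ℚ) ^ s) = A.eval ((2 : ℚ) ^ s) * (B / A).eval ((2 : ℚ) ^ s) + (B % A).eval ((2 : ℚ) ^ s) := by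
    conv_lhs => rw [← EuclideanDomain.div_add_mod B A]
    simp
  rw [hB2, he, ← hd] at hE
  have hw : N * z' = d * (N * N' * e - N' * z) := by
    have : ((N * z' : ℤ) : ℚ) = ((d * (N * N' * e - N' * z) : ℤ) : ℚ) := by
      push_cast
      rw [hz, hz']
      push_cast at hE
      linear_combination ((N : ℚ) * N') * (- hE)
    exact_mod_cast this
  have hlt : |N * z'| < |d| := by
    have h6 : |(C (N * N' : ℚ) * (B % A)).eval ((2 : ℚ) ^ s) / A.eval ((2 : ℚ) ^ s)| < 1 := by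
      have := h4
      simp only [Function.comp_apply] at this
      rw [dist_zero_right] at this
      have h7 : ‖(C (N * N' : ℚ) * (B % A)).eval ((2 : ℚ) ^ s) / A.eval ((2 : ℚ) ^ s)‖ =
        ((|(C (N * N' : ℚ) * (B % A)).eval ((2 : ℚ) ^ s) / A.eval ((2 : ℚ) ^ s)| : ℚ) : ℝ) := by
        rw [← Rat.norm_cast_real, Real.norm_eq_abs, Rat.cast_abs]
      rw [h7] at this
      exact_mod_cast this
    rw [← hd, abs_div, div_lt_one (abs_pos.2 (by exact_mod_cast hd0))] at h6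
    have h8 : (C (N * N' : ℚ) * (B % A)).eval ((2 : ℚ) ^ s) = ((N * z' : ℤ) : ℚ) := by
      push_cast
      rw [hz']
      simp
      ring
    rw [h8] at h6
    exact_mod_cast h6
  have h9 : N * z' = 0 := by
    apply Int.eq_zero_of_abs_lt_dvd (m := |d|) _ hlt
    rw [abs_dvd]
    exact ⟨_, hw⟩
  have h10 : z' = 0 := by
    rcases mul_eq_zero.1 h9 with h | h
    · exact absurd h hN
    · exact h
  rw [h10] at hz'
  simp at hz'
  rcases hz' with h | h
  · exact absurd h hN'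
  · exact h

end Pool.Agent.H59.HL
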