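import Pool.Agent.H95.HL.Stm2

/-! # Project HL (helper95): module INT (helper59) -/

set_option autoImplicit false

namespace Pool.Agent.H59.HL

open Polynomial

theorem prim_part (p : ℚ[X]) (hp : p ≠ 0) : ∃ (P : ℤ[X]) (c : ℚ), P.IsPrimitive ∧ c ≠ 0 ∧
    p = C c * P.map (Int.castRingHom ℚ) := by
  obtain ⟨b, hb0, hb⟩ := IsLocalization.integerNormalization_spec (nonZeroDivisors ℤ) (p : ℚ[X])
  have hb1 : (b : ℚ) ≠ 0 := by
    have := nonZeroDivisors.ne_zero hb0
    exact_mod_cast this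
  obtain ⟨Q, hQ⟩ : ∃ Q, Q = IsLocalization.integerNormalization (nonZeroDivisors ℤ) p := ⟨_, rfl⟩
  rw [← hQ] at hb
  have hmap : Q.map (Int.castRingHom ℚ) = C (b : ℚ) * p := by
    have h1 : algebraMap ℤ ℚ = Int.castRingHom ℚ := rfl
    rw [← h1, hb]
    ext n
    simp
  have hQ0 : Q ≠ 0 := by
    rintro rfl
    rw [Polynomial.map_zero] at hmap
    rcases mul_eq_zero.1 hmap.symm with h | h
    · exact hb1 (by simpa using h)
    · exact hp h
  have hc : (Q.content : ℚ) ≠ 0 := by
    have : Q.content ≠ 0 := by rwa [Ne, content_eq_zero_iff]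
    exact_mod_cast this
  refine ⟨Q.primPart, (Q.content : ℚ) / b, Q.isPrimitive_primPart, div_ne_zero hc hb1, ?_⟩
  have h2 : Q.map (Int.castRingHom ℚ) = C (Q.content : ℚ) * Q.primPart.map (Int.castRingHom ℚ) := by
    conv_lhs => rw [Q.eq_C_content_mul_primPart]
    rw [Polynomial.map_mul, Polynomial.map_C]
    simp
  rw [hmap] at h2
  have h3 : C (Q.content / b : ℚ) * Q.primPart.map (Int.castRingHom ℚ) =
      C (b : ℚ)⁻¹ * (C (Q.content : ℚ) * Q.primPart.map (Int.castRingHom ℚ)) := by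
    rw [← mul_assoc, ← C_mul]
    congr 2
    field_simp
  rw [h3, ← h2, ← mul_assoc, ← C_mul, inv_mul_cancel₀ hb1, C_1, one_mul]

theorem t_INT : Pool.Agent.H95.HL.S_INT := by
  intro k i A B hk hAB
  obtain ⟨F, hF⟩ : ∃ F : ℤ[X], F = C ((2 : ℤ) ^ i) * X ^ k + 1 := ⟨_, rfl⟩
  have hFm : F.map (Int.castRingHom ℚ) = C ((2 : ℚ) ^ i) * X ^ k + 1 := by
    rw [hF, Polynomial.map_add, Polynomial.map_mul, map_C, Polynomial.map_pow, map_X, Polynomial.map_one]
    simp only [eq_intCast, Int.cast_pow, Int.cast_ofNat]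
  have hF0 : F.coeff 0 = 1 := by
    rw [hF, coeff_add, coeff_C_mul, coeff_X_pow, if_neg (by omega)]
    simp
  have hFp : F.IsPrimitive := by
    intro r hr
    rw [C_dvd_iff_dvd_coeff] at hr
    have := hr 0
    rw [hF0] at this
    exact isUnit_of_dvd_one this
  have hFz : F.map (Int.castRingHom ℚ) ≠ 0 := by
    intro h
    have h1 := congrArg (fun p => p.coeff 0) h
    simp only [coeff_map, hF0] at h1
    simp at h1
  rw [← hFm] at hAB
  have hA0 : A ≠ 0 := by
    rintro rfl
    rw [zero_mul] at hAB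
    exact hFz hAB.symm
  have hB0 : B ≠ 0 := by
    rintro rfl
    rw [mul_zero] at hAB
    exact hFz hAB.symm
  obtain ⟨P, a, hP, ha, hAP⟩ := prim_part A hA0
  obtain ⟨Q, b, hQ, hb, hBQ⟩ := prim_part B hB0
  have hPQ : (P * Q).IsPrimitive := hP.mul hQ
  obtain ⟨r, hr⟩ : ∃ r : ℚ, r = a * b := ⟨_, rfl⟩
  have h1 : C r * (P * Q).map (Int.castRingHom ℚ) = F.map (Int.castRingHom ℚ) := by
    rw [← hAB, hAP, hBQ, hr, Polynomial.map_mul, C_mul]
    ring
  have h2 : C r.num * (P * Q) = C (r.den : ℤ) * F := by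
    apply Polynomial.map_injective (Int.castRingHom ℚ) Int.cast_injective
    rw [Polynomial.map_mul, Polynomial.map_mul (p := C (r.den : ℤ)), ← h1, map_C, map_C, ← mul_assoc, ← C_mul]
    congr 2
    have := Rat.mul_den_eq_num r
    simp only [eq_intCast, Int.cast_natCast]
    rw [mul_comm]
    exact_mod_cast this.symm
  have h3 := congrArg content h2
  rw [content_C_mul, content_C_mul, hPQ.content_eq_one, hFp.content_eq_one, mul_one, mul_one,
    ← Int.abs_eq_normalize, ← Int.abs_eq_normalize, Nat.abs_cast] at h3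
  have h4 : r.den = 1 := by
    have h5 : r.num.natAbs = r.den := by
      have : (r.num.natAbs : ℤ) = (r.den : ℤ) := by rw [Int.natCast_natAbs]; exact h3
      exact_mod_cast this
    have h6 := r.reduced
    rw [h5] at h6
    exact (Nat.coprime_self _).1 h6
  rw [h4] at h2 h3
  have h7 : C r.num * (P * Q) = F := by simpa using h2
  have h8 : r.num * r.num = 1 := by
    rw [← abs_mul_abs_self, h3]
    norm_num
  have hrn : (r.num : ℚ) = r := by
    have := Rat.coe_int_num_of_den_eq_one h4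
    exact this
  have h9 : P * Q = C r.num * F := by
    rw [← h7, ← mul_assoc, ← C_mul, h8, C_1, one_mul]
  have h10 : P.coeff 0 * Q.coeff 0 = r.num := by
    have := congrArg (fun p => p.coeff 0) h9
    simp only [mul_coeff_zero, coeff_C_zero, hF0, mul_one] at this
    exact this
  obtain ⟨u, hu⟩ : ∃ u, u = P.coeff 0 := ⟨_, rfl⟩
  obtain ⟨v, hv⟩ : ∃ v, v = Q.coeff 0 := ⟨_, rfl⟩
  rw [← hu, ← hv] at h10
  have huv : (u * u) * (v * v) = 1 := by
    calc (u * u) * (v * v) = (u * v) * (u * v) := by ring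
      _ = 1 := by rw [h10, h8]
  have hu1 : u * u = 1 := by
    rcases Int.mul_eq_one_iff_eq_one_or_neg_one.1 huv with ⟨h, _⟩ | ⟨h, _⟩
    · exact h
    · nlinarith [mul_self_nonneg u]
  have hv1 : v * v = 1 := by
    rw [hu1, one_mul] at huv
    exact huv
  have hu1q : (u : ℚ) * u = 1 := by exact_mod_cast hu1
  have hv1q : (v : ℚ) * v = 1 := by exact_mod_cast hv1
  have huq : (u : ℚ) ≠ 0 := by
    intro h
    rw [h] at hu1q
    norm_num at hu1q
  refine ⟨C u * P, C v * Q, a * u, mul_ne_zero ha huq, ?_, ?_, ?_, ?_, ?_⟩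
  · rw [← hF]
    calc C u * P * (C v * Q) = C (u * v) * (P * Q) := by rw [C_mul]; ring
      _ = F := by rw [h10, h7]
  · rw [coeff_C_mul, ← hu, hu1]
  · rw [coeff_C_mul, ← hv, hv1]
  · rw [hAP, Polynomial.map_mul, map_C, ← mul_assoc, ← C_mul]
    congr 2
    simp only [eq_intCast]
    rw [mul_assoc, hu1q, mul_one]
  · rw [hBQ, Polynomial.map_mul, map_C, ← mul_assoc, ← C_mul]
    congr 2
    simp only [eq_intCast]
    have hab : a * b = u * v := by
      rw [← hr, ← hrn, ← h10]
      push_cast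
      ring
    rw [mul_inv, eq_comm]
    have h11 : (u : ℚ)⁻¹ = u := by
      rw [inv_eq_of_mul_eq_one_right hu1q]
    rw [h11]
    have h12 : (v : ℚ) = a * b * u := by
      rw [hab]
      calc (v : ℚ) = (u * u) * v := by rw [hu1q, one_mul]
        _ = u * v * u := by ring
    rw [h12]
    field_simp
    rw [sq]
    exact hu1q

end Pool.Agent.H59.HL
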